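import Pool.Agent.Helper50.BL2.Stmts2
import Pool.Agent.Helper81.BL.IND

/-!
# The net of all large sets, second version (adapted from module IND of helper81)
-/

namespace Pool.Agent.Helper50.BL

open Finset
open scoped Classical

noncomputable section

theorem ind2_step (hK : ST_KST) (hA : ST_AST) {V J : Type} [Fintype V] [DecidableEq V] [Fintype J]
    [DecidableEq J] (S : J → Finset V) (p t ρ n1 : ℕ) (lv : J → ℕ) (hp : 1 ≤ p) (ht : 1 ≤ t)
    (hρ : 64 * t ≤ 2 ^ ρ) (hn1 : 2 ≤ n1) (hS : ∀ n : ℕ, n1 ≤ n → StepOK p t ρ n) (hD : Deg S t)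
    (hup : ∀ j, #(S j) < nn n1 (lv j) ^ (16 * p))
    (hlo : ∀ j, 1 ≤ lv j → nn n1 (lv j - 1) ^ (16 * p) ≤ #(S j))
    (hov : ∀ i j, i ≠ j → 1 ≤ lv j → lv i ≤ lv j →
      32 * t * nn n1 (lv j - 1) ^ 12 * #(S i ∩ S j) ≤ #(S j))
    (m : ℕ) (hcl : ind_Cl S lv p ρ n1 (m + 1)) : ind_Cl S lv p ρ n1 m := by
  obtain ⟨N, hN1, hN2⟩ := hcl
  set n : ℕ := nn n1 m with hn
  have hnn : n1 ≤ n := ind_nn_ge n1 m hn1
  have hn2 : 2 ≤ n := le_trans hn1 hnn
  have hn1R : (1 : ℝ) ≤ (n : ℝ) := by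
    have : 1 ≤ n := by omega
    exact_mod_cast this
  have hn0R : (0 : ℝ) < (n : ℝ) := by linarith
  obtain ⟨sa, sb, sc, ⟨Nn, sd1, sd2, sd3⟩, se⟩ := hS n hnn
  have hsucc : nn n1 (m + 1) = n ^ 2 := ind_nn_succ n1 m
  have hκ : (0 : ℝ) ≤ kap p n := by linarith
  have hβ : (0 : ℝ) ≤ (1 / (n : ℝ) ^ (16 * p)) ^ 2 := by positivity
  have eβu : (1 / (nn n1 (m + 1) : ℝ) ^ (16 * p)) ^ 2 = (1 / (n : ℝ) ^ (32 * p)) ^ 2 := by
    rw [hsucc]
    push_cast
    rw [← pow_mul]
    congr 3
    ring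
  have eζu : (1 / (nn n1 (m + 1) : ℝ) ^ (32 * p)) ^ 6 = (1 / (n : ℝ) ^ (32 * p)) ^ 12 := by
    rw [hsucc]
    push_cast
    rw [one_div, one_div, inv_pow, inv_pow, ← pow_mul, ← pow_mul, ← pow_mul]
    congr 2
    ring
  rw [eβu, eζu] at hN1
  set A : Finset J := univ.filter (fun j => m + 1 + 1 ≤ lv j) with hAdef
  set B : Finset J := univ.filter (fun j => lv j = m + 1) with hBdef
  set C : Finset J := univ.filter (fun j => lv j = m) with hCdef
  have mA : ∀ j, j ∈ A ↔ m + 1 + 1 ≤ lv j := fun j => by simp [hAdef]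
  have mB : ∀ j, j ∈ B ↔ lv j = m + 1 := fun j => by simp [hBdef]
  have mC : ∀ j, j ∈ C ↔ lv j = m := fun j => by simp [hCdef]
  have dAB : Disjoint A B := by
    rw [Finset.disjoint_left]
    intro j h1 h2
    rw [mA] at h1
    rw [mB] at h2
    omega
  have dAC : Disjoint A C := by
    rw [Finset.disjoint_left]
    intro j h1 h2
    rw [mA] at h1
    rw [mC] at h2
    omega
  have dBC : Disjoint B C := by
    rw [Finset.disjoint_left]
    intro j h1 h2
    rw [mB] at h1
    rw [mC] at h2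
    omega
  have hsz : ∀ i ∈ B ∪ C, (#(S i) : ℝ) ≤ (n : ℝ) ^ (32 * p) := by
    intro i hi
    rw [Finset.mem_union, mB, mC] at hi
    have h1 := hup i
    have h2 : #(S i) ≤ n ^ (32 * p) := by
      rcases hi with hi | hi
      · rw [hi, hsucc, ← pow_mul] at h1
        have : 2 * (16 * p) = 32 * p := by ring
        rw [this] at h1
        exact h1.le
      · rw [hi] at h1
        refine h1.le.trans ?_
        exact Nat.pow_le_pow_right (by omega) (by omega)
    exact_mod_cast h2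
  have hD0 : (0 : ℝ) ≤ (n : ℝ) ^ (32 * p) := by positivity
  have hD1 : (1 : ℝ) ≤ (n : ℝ) ^ (32 * p) := one_le_pow₀ hn1R
  refine ⟨stepNet N S (B ∪ C) B ((2 : ℝ) ^ ρ) ((n : ℝ) ^ 4) (kap p n)
    ((1 / (n : ℝ) ^ (16 * p)) ^ 2) hκ hβ, ?_, ?_⟩
  · have h1 := hK V J N S (B ∪ C) B ((2 : ℝ) ^ ρ) ((n : ℝ) ^ 4) (kap p n)
      ((1 / (n : ℝ) ^ (16 * p)) ^ 2) ((1 / (n : ℝ) ^ (32 * p)) ^ 2)
      ((1 / (n : ℝ) ^ (32 * p)) ^ 12) ((n : ℝ) ^ (32 * p)) t hκ hβ Finset.subset_union_left hD
      hsz hD0 (by positivity) ?_ (by positivity) hN1 sb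
    · intro x F
      exact (h1 x F).trans sc
    · rw [one_div, sq, mul_assoc, inv_mul_cancel₀ (by positivity), mul_one]
      exact inv_le_one_of_one_le₀ hD1
  · have hM0 : (0 : ℝ) < (n : ℝ) ^ (16 * p) := by positivity
    have h1 := hA V J N S A B C (ind_Bd S lv p ρ n1 (m + 1)) t ρ Nn ((n : ℝ) ^ (32 * p))
      ((n : ℝ) ^ 4) (kap p n) ((1 / (n : ℝ) ^ (16 * p)) ^ 2) ((n : ℝ) ^ (16 * p)) hκ hβ dAB dAC dBC
      ht hD hsz hD0 hM0 ?_ (one_le_pow₀ hn1R) (by exact_mod_cast hρ) sa ?_ sd1 hN2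
    · have eU1 : (univ.filter (fun j => m + 1 ≤ lv j) : Finset J) = A ∪ B := by
        ext j
        rw [Finset.mem_union, mA, mB, Finset.mem_filter]
        constructor
        · rintro ⟨_, h⟩
          omega
        · intro h
          exact ⟨Finset.mem_univ _, by omega⟩
      have eU0 : (univ.filter (fun j => m ≤ lv j) : Finset J) = A ∪ B ∪ C := by
        ext j
        rw [Finset.mem_union, Finset.mem_union, mA, mB, mC, Finset.mem_filter]
        constructor
        · rintro ⟨_, h⟩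
          omega
        · intro h
          exact ⟨Finset.mem_univ _, by omega⟩
      rw [eU1]
      intro lam
      obtain ⟨E, hE1, hE2⟩ := h1 lam
      refine ⟨E, hE1, fun G => (hE2 G).trans ?_⟩
      have hl1 : l1 (fld S lam (A ∪ B))
          ≤ l1 (fld S lam (A ∪ B ∪ C)) + ∑ j ∈ C, (n : ℝ) ^ (16 * p) * |lam j| := by
        have g1 : l1 (fld S lam (A ∪ B))
            ≤ l1 (fld S lam (A ∪ B ∪ C)) + l1 (fld S lam C) := by
          unfold l1
          rw [← Finset.sum_add_distrib]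
          refine Finset.sum_le_sum fun x _ => ?_
          have e := ind_fld_union S lam (A ∪ B) C (A ∪ B ∪ C)
            (Finset.disjoint_union_left.2 ⟨dAC, dBC⟩) (fun j => by rw [Finset.mem_union]) x
          have e' : fld S lam (A ∪ B) x = fld S lam (A ∪ B ∪ C) x - fld S lam C x := by linarith
          rw [e']
          exact abs_sub _ _
        refine g1.trans ?_
        have g2 := ind_l1_fld S lam C
        have g3 : ∑ j ∈ C, (#(S j) : ℝ) * |lam j| ≤ ∑ j ∈ C, (n : ℝ) ^ (16 * p) * |lam j| := by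
          refine Finset.sum_le_sum fun j hj => mul_le_mul_of_nonneg_right ?_ (abs_nonneg _)
          rw [mC] at hj
          have := hup j
          rw [hj] at this
          exact_mod_cast this.le
        linarith
      set L0 := l1 (fld S lam (A ∪ B ∪ C)) with hL0
      set L1 := l1 (fld S lam (A ∪ B)) with hL1
      have hL0n : 0 ≤ L0 := ind_l1_nn _
      set R := Rc (kap p n) t ((2 : ℝ) ^ ρ) ((n : ℝ) ^ 4) ((n : ℝ) ^ (32 * p)) Nn with hRdef
      set c1 : ℝ := (2 : ℝ) ^ ρ * (1 / (n : ℝ)) ^ (24 * p) + 8 * (1 / (n : ℝ)) ^ (32 * p) with hc1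
      have hc1n : 0 ≤ c1 := by positivity
      have e12 : (1 / (nn n1 (m + 1) : ℝ)) ^ (12 * p) = (1 / (n : ℝ)) ^ (24 * p) := by
        rw [hsucc]
        push_cast
        rw [one_div, one_div, inv_pow, inv_pow, ← pow_mul]
        congr 2
        ring
      have e16 : (1 / (n : ℝ) ^ (16 * p)) ^ 2 = (1 / (n : ℝ)) ^ (32 * p) := by
        rw [one_div, one_div, inv_pow, inv_pow, ← pow_mul]
        congr 2
        ring
      have e16' : 2 * (kap p n + 2) * (2 : ℝ) ^ ρ * t / (n : ℝ) ^ (16 * p)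
          = 2 * (kap p n + 2) * (2 : ℝ) ^ ρ * t * (1 / (n : ℝ)) ^ (16 * p) := by
        rw [one_div, inv_pow, div_eq_mul_inv]
      have hsumBC : R * ∑ i ∈ B ∪ C, |lam i|
          = ∑ j, (if lv j = m + 1 ∨ lv j = m then R else 0) * |lam j| := by
        rw [Finset.mul_sum]
        have : B ∪ C = univ.filter (fun j => lv j = m + 1 ∨ lv j = m) := by
          ext j
          rw [Finset.mem_union, mB, mC]
          simp
        rw [this, Finset.sum_filter]
        refine Finset.sum_congr rfl fun j _ => ?_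
        split_ifs <;> simp
      have hsumC : c1 * ∑ j ∈ C, (n : ℝ) ^ (16 * p) * |lam j|
          = ∑ j, (if lv j = m then (n : ℝ) ^ (16 * p) * c1 else 0) * |lam j| := by
        rw [Finset.mul_sum, hCdef, Finset.sum_filter]
        refine Finset.sum_congr rfl fun j _ => ?_
        split_ifs
        · ring
        · simp
      have hcoef : ∑ j, ((2 : ℝ) ^ ρ * ind_b ρ n1 (m + 1) (lv j)
            + (if lv j = m + 1 ∨ lv j = m then R else 0)
            + (if lv j = m then (n : ℝ) ^ (16 * p) * c1 else 0)) * |lam j|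
          ≤ ∑ j, ind_b ρ n1 m (lv j) * |lam j| := by
        refine Finset.sum_le_sum fun j _ => mul_le_mul_of_nonneg_right ?_ (abs_nonneg _)
        exact ind_coef p t ρ n1 m Nn (lv j) (kap p n) R sd2 c1 sd3
      have hsplit : ∑ j, ((2 : ℝ) ^ ρ * ind_b ρ n1 (m + 1) (lv j)
            + (if lv j = m + 1 ∨ lv j = m then R else 0)
            + (if lv j = m then (n : ℝ) ^ (16 * p) * c1 else 0)) * |lam j|
          = (2 : ℝ) ^ ρ * ∑ j, ind_b ρ n1 (m + 1) (lv j) * |lam j|
            + R * ∑ i ∈ B ∪ C, |lam i| + c1 * ∑ j ∈ C, (n : ℝ) ^ (16 * p) * |lam j| := by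
        rw [hsumBC, hsumC, Finset.mul_sum, ← Finset.sum_add_distrib, ← Finset.sum_add_distrib]
        refine Finset.sum_congr rfl fun j _ => ?_
        ring
      rw [hsplit] at hcoef
      beta_reduce
      unfold ind_Bd
      rw [eU1, eU0, e12, e16, e16']
      rw [← hL0, ← hL1, ← hn]
      have hfin : c1 * L1 ≤ c1 * (L0 + ∑ j ∈ C, (n : ℝ) ^ (16 * p) * |lam j|) :=
        mul_le_mul_of_nonneg_left hl1 hc1n
      have hse : (c1 + 2 * (kap p n + 2) * (2 : ℝ) ^ ρ * t * (1 / (n : ℝ)) ^ (16 * p)) * L0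
          ≤ (1 / (n : ℝ)) ^ (12 * p) * L0 := mul_le_mul_of_nonneg_right se hL0n
      have hc1' : c1 * L1 = (2 : ℝ) ^ ρ * (1 / (n : ℝ)) ^ (24 * p) * L1
          + 8 * (1 / (n : ℝ)) ^ (32 * p) * L1 := by
        rw [hc1]
        ring
      nlinarith [hfin, hse, hcoef, hc1']
    · intro j hj
      rw [mB] at hj
      have := hlo j (by omega)
      rw [hj] at this
      simp only [Nat.add_sub_cancel] at this
      exact_mod_cast this
    · intro j hj i hi hij
      rw [mB] at hj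
      rw [Finset.mem_union, mB, mC] at hi
      have := hov i j hij (by omega) (by omega)
      rw [hj] at this
      simp only [Nat.add_sub_cancel] at this
      have e : ((n : ℝ) ^ 4) ^ 3 = (n : ℝ) ^ 12 := by rw [← pow_mul]
      rw [e]
      exact_mod_cast this

theorem st_IND2 (hK : ST_KST) (hA : ST_AST) : ST_IND2 := by
  intro V J _ _ _ _ S p t ρ n1 lv hp ht hρ hn1 hS hD hup hlo hov
  have key : ∀ d m : ℕ, m + d = univ.sup lv → ind_Cl S lv p ρ n1 m := by
    intro d
    induction d with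
    | zero =>
      intro m hm
      refine ind_base S lv p ρ n1 m fun j => ?_
      have := Finset.le_sup (f := lv) (Finset.mem_univ j)
      omega
    | succ d ih =>
      intro m hm
      exact ind2_step hK hA S p t ρ n1 lv hp ht hρ hn1 hS hD hup hlo hov m (ih (m + 1) (by omega))
  obtain ⟨N, h1, h2⟩ := key (univ.sup lv) 0 (by omega)
  have h0 : nn n1 0 = n1 := by simp [nn]
  rw [h0] at h1
  refine ⟨N, h1, ?_⟩
  have hU : (univ.filter (fun j => 0 ≤ lv j) : Finset J) = univ := by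
    ext j
    simp
  have hB : ind_Bd S lv p ρ n1 0 = (fun lam =>
      (1 / (n1 : ℝ)) ^ (12 * p) * l1 (fld S lam univ) + ∑ j, bco ρ n1 (lv j) * |lam j|) := by
    funext lam
    unfold ind_Bd
    rw [hU, h0]
    congr 1
    refine Finset.sum_congr rfl fun j _ => ?_
    congr 1
    unfold ind_b bco
    rcases Nat.eq_zero_or_pos (lv j) with h | h
    · rw [if_neg (by omega), if_pos h, if_pos h, h0]
    · rw [if_pos (by omega), if_neg (by omega)]
  rw [hB] at h2
  simpa using h2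

end

end Pool.Agent.Helper50.BL
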