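import Pool.Agent.Helper50.BL2.Stmts2

/-! The overlap condition is kept, second version (adapted from module INV of helper3). -/

namespace Pool.Agent.Helper50.BL

open Finset
open scoped Classical

theorem st_INV2 : ST_INV2 := by
  intro V J _ _ _ _ S ξ dd Z0 δ η hδ hδ1 hη hη4 hpow hZd hZ1 hov hst hst2 i j hij hle hsq
  have hsub : stay ξ (S i) ∩ stay ξ (S j) ⊆ stay ξ (S i ∩ S j) := by
    intro x hx
    simp only [stay, Finset.mem_inter, Finset.mem_filter] at hx ⊢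
    exact ⟨⟨hx.1.1, hx.2.1⟩, hx.1.2⟩
  have hq' : (#(stay ξ (S i) ∩ stay ξ (S j)) : ℝ) ≤ (#(stay ξ (S i ∩ S j)) : ℝ) := by
    exact_mod_cast Finset.card_le_card hsub
  have hqq : (#(stay ξ (S i ∩ S j)) : ℝ) ≤ (#(S i ∩ S j) : ℝ) := by
    exact_mod_cast Finset.card_le_card (Finset.filter_subset _ _)
  by_cases hq : #(S i ∩ S j) ≤ dd
  · refine le_max_of_le_left ?_
    have : (#(S i ∩ S j) : ℝ) ≤ dd := by exact_mod_cast hq
    linarith
  · push Not at hq
    have hZq : Z0 ≤ #(S i ∩ S j) := by omega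
    have hqi : #(S i ∩ S j) ≤ #(S i) := Finset.card_le_card Finset.inter_subset_left
    have hqj : #(S i ∩ S j) ≤ #(S j) := Finset.card_le_card Finset.inter_subset_right
    have h1 := hst i (hZq.trans hqi)
    have h2 := hst j (hZq.trans hqj)
    have h3 := hst2 i j hij hZq
    rw [abs_le] at h1 h2 h3
    have hq2 : 2 ≤ #(S i ∩ S j) := by omega
    have hi2 : (2 : ℝ) ≤ (#(S i) : ℝ) := by exact_mod_cast hq2.trans hqi
    have hj2 : (2 : ℝ) ≤ (#(S j) : ℝ) := by exact_mod_cast hq2.trans hqj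
    have hleR : (#(stay ξ (S i)) : ℝ) ≤ (#(stay ξ (S j)) : ℝ) := by exact_mod_cast hle
    have hsqR : (#(stay ξ (S j)) : ℝ) ≤ (#(stay ξ (S i)) : ℝ) ^ 2 := by exact_mod_cast hsq
    have hsi0 : (0 : ℝ) ≤ (#(stay ξ (S i)) : ℝ) := Nat.cast_nonneg _
    have hnd : ¬ (#(S i ∩ S j) : ℝ) ≤ (dd : ℝ) := by
      intro h
      have : #(S i ∩ S j) ≤ dd := by exact_mod_cast h
      omega
    have h4 : (#(S i ∩ S j) : ℝ) ≤ (#(S i) : ℝ) ^ (1 - δ) := by
      rcases le_total (#(S i)) (#(S j)) with hc | hc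
      · have h5 : #(S j) ≤ #(S i) ^ 2 := by
          by_contra hcon
          push Not at hcon
          have h6 : (#(S i) : ℝ) ^ 2 < (#(S j) : ℝ) := by exact_mod_cast hcon
          have h7 : (#(stay ξ (S i)) : ℝ) ≤ (1 / 2 + η) * (#(S i) : ℝ) := by linarith [h1.2]
          have h8 : (#(stay ξ (S i)) : ℝ) ^ 2 ≤ ((1 / 2 + η) * (#(S i) : ℝ)) ^ 2 :=
            pow_le_pow_left₀ hsi0 h7 2
          have h9 : (1 / 2 - η) * (#(S j) : ℝ) ≤ (#(stay ξ (S j)) : ℝ) := by linarith [h2.1]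
          have h10 : (1 / 2 + η) ^ 2 ≤ 1 / 2 - η := by nlinarith
          have h11 : (1 / 2 + η) ^ 2 * (#(S i) : ℝ) ^ 2 ≤ (1 / 2 - η) * (#(S i) : ℝ) ^ 2 :=
            mul_le_mul_of_nonneg_right h10 (by positivity)
          have h12 : (1 / 2 - η) * (#(S i) : ℝ) ^ 2 < (1 / 2 - η) * (#(S j) : ℝ) :=
            mul_lt_mul_of_pos_left h6 (by linarith)
          nlinarith
        rcases le_max_iff.1 (hov i j hij hc h5) with h | h
        · exact absurd h hnd
        · exact h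
      · have h5 : #(S i) ≤ #(S j) ^ 2 := by
          have h6 : (#(S i) : ℝ) ≤ (#(S j) : ℝ) ^ 2 := by
            have h7 : (1 / 2 - η) * (#(S i) : ℝ) ≤ (1 / 2 + η) * (#(S j) : ℝ) := by
              linarith [h1.1, h2.2]
            nlinarith
          exact_mod_cast h6
        rcases le_max_iff.1 (hov j i (Ne.symm hij) hc h5) with h | h
        · rw [Finset.inter_comm] at h
          exact absurd h hnd
        · rw [Finset.inter_comm] at h
          refine h.trans (Real.rpow_le_rpow (Nat.cast_nonneg _) ?_ (by linarith))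
          exact_mod_cast hc
    refine le_max_of_le_right ?_
    have hc : (0 : ℝ) ≤ 1 / 2 - η := by linarith
    have he : (0 : ℝ) ≤ 1 - δ := by linarith
    calc (#(stay ξ (S i) ∩ stay ξ (S j)) : ℝ) ≤ (#(stay ξ (S i ∩ S j)) : ℝ) := hq'
      _ ≤ (1 / 2 + η) * (#(S i ∩ S j) : ℝ) := by nlinarith [h3.2]
      _ ≤ (1 / 2 - η) ^ (1 - δ) * (#(S i) : ℝ) ^ (1 - δ) := by
          refine mul_le_mul hpow h4 (Nat.cast_nonneg _) (Real.rpow_nonneg hc _)
      _ = ((1 / 2 - η) * (#(S i) : ℝ)) ^ (1 - δ) := by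
          rw [Real.mul_rpow hc (by linarith)]
      _ ≤ (#(stay ξ (S i)) : ℝ) ^ (1 - δ) :=
          Real.rpow_le_rpow (mul_nonneg hc (by linarith)) (by linarith [h1.1]) he

end Pool.Agent.Helper50.BL
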