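import Pool.Agent.Helper50.BL2.Stmts2
import Pool.Agent.Helper50.BL.LAYER

/-! # One round, second version -/

namespace Pool.Agent.Helper50.BL

open Finset
open scoped Classical

theorem st_LAYER2 (hX : ST_XI) (hC : ST_CHN) (hD : ST_LPD) (hI : ST_IND2) (hK : ST_CLS) :
    ST_LAYER2 := by
  intro V J _ _ _ _ S y p t ρ n1 dd Z0 δ γ η hp ht hρ hstep hfo hγ hγ1 hγη hη hδ hδ1 hδp hZ0 hy
    hdeg hov
  have hn1 : 2 ≤ n1 := hfo.h
  obtain ⟨lv, hlv1, hlv2⟩ := hK J (fun j => #(S j)) n1 p hfo.h (by omega)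
  have hnge : ∀ k, n1 ≤ nn n1 k := layer_nn_ge hn1
  have hp1 : 1 ≤ p := by omega
  have hovl : ∀ i j, i ≠ j → 1 ≤ lv j → lv i ≤ lv j →
      32 * t * nn n1 (lv j - 1) ^ 12 * #(S i ∩ S j) ≤ #(S j) := by
    intro i j hij hj hl
    have hg := hfo.g _ (hnge (lv j - 1))
    set n : ℕ := nn n1 (lv j - 1) with hnd
    have hn : n1 ≤ n := hnge _
    have hjlo : n ^ (16 * p) ≤ #(S j) := hlv2 j hj
    have hjsq : #(S i) < #(S j) ^ 2 := by
      have h1 := hlv1 i
      have h2 : nn n1 (lv i) ≤ n ^ 2 := by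
        have h3 : nn n1 (lv i) ≤ nn n1 (lv j) := by
          unfold nn
          exact Nat.pow_le_pow_right (by omega) (Nat.pow_le_pow_right (by norm_num) hl)
        have h4 : nn n1 (lv j) = n ^ 2 := by
          rw [hnd]
          unfold nn
          rw [← pow_mul]
          congr 1
          obtain ⟨k, hk⟩ : ∃ k, lv j = k + 1 := ⟨lv j - 1, by omega⟩
          rw [hk]
          simp [pow_succ]
        omega
      have h5 : nn n1 (lv i) ^ (16 * p) ≤ #(S j) ^ 2 := by
        calc nn n1 (lv i) ^ (16 * p) ≤ (n ^ 2) ^ (16 * p) := Nat.pow_le_pow_left h2 _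
          _ = (n ^ (16 * p)) ^ 2 := by rw [← pow_mul, ← pow_mul, mul_comm]
          _ ≤ #(S j) ^ 2 := Nat.pow_le_pow_left hjlo 2
      omega
    rcases le_total (#(S i)) (#(S j)) with hle | hle
    · by_cases hc : #(S j) ≤ #(S i) ^ 2
      · refine layer_ovl (dd := dd) (p := p) (δ := δ) (by omega) hδ hδ1
          hδp hg.1 hg.2 hjlo ?_
        refine le_trans (hov i j hij hle hc) (max_le_max le_rfl ?_)
        refine Real.rpow_le_rpow (Nat.cast_nonneg _) ?_ (by linarith)
        exact_mod_cast hle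
      · push Not at hc
        have h1 : #(S i ∩ S j) ≤ #(S i) := Finset.card_le_card Finset.inter_subset_left
        have h2 : 32 * t * n ^ 12 ≤ n ^ (8 * p) := by
          refine le_trans hg.2 ?_
          exact Nat.pow_le_pow_right (by omega) (by omega)
        by_contra hcon
        push Not at hcon
        have h3 : #(S j) < n ^ (8 * p) * #(S i) := by
          calc #(S j) < 32 * t * n ^ 12 * #(S i ∩ S j) := hcon
            _ ≤ n ^ (8 * p) * #(S i) := Nat.mul_le_mul h2 h1
        have h4 : n ^ (8 * p) < #(S i) ∨ #(S i) ≤ n ^ (8 * p) := by omega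
        rcases h4 with h4 | h4
        · have h5 : n ^ (8 * p) * #(S i) ≤ #(S i) ^ 2 := by
            rw [sq]
            exact Nat.mul_le_mul_right _ h4.le
          omega
        · have h5 : n ^ (8 * p) * #(S i) ≤ n ^ (16 * p) := by
            calc n ^ (8 * p) * #(S i) ≤ n ^ (8 * p) * n ^ (8 * p) := Nat.mul_le_mul_left _ h4
              _ = n ^ (16 * p) := by
                rw [← pow_add]
                congr 1
                ring
          omega
    · refine layer_ovl (dd := dd) (p := p) (δ := δ) (by omega) hδ hδ1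
        hδp hg.1 hg.2 hjlo ?_
      have h1 := hov j i (Ne.symm hij) hle hjsq.le
      rw [Finset.inter_comm] at h1
      exact h1
  obtain ⟨N, hKr, hAp⟩ := hI V J S p t ρ n1 lv hp1 ht hρ hn1 hstep hdeg hlv1 hlv2 hovl
  set Z : Finset J := univ.filter (fun j => lv j = 0) with hZ
  have hZc : univ \ Z = univ.filter (fun j => 1 ≤ lv j) := by
    ext j
    simp only [hZ, mem_sdiff, mem_univ, mem_filter, true_and]
    omega
  have hn1R : (2 : ℝ) ≤ (n1 : ℝ) := by exact_mod_cast hn1
  have hn10 : (0 : ℝ) < (n1 : ℝ) := by linarith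
  have hlogn : 0 < Real.log (n1 : ℝ) := Real.log_pos (by linarith)
  have htR : (1 : ℝ) ≤ (t : ℝ) := by exact_mod_cast ht
  have hpR : (1 : ℝ) ≤ (p : ℝ) := by exact_mod_cast hp1
  set K : ℝ := (n1 : ℝ) ^ (16 * p) with hKdef
  have hK0 : 0 < K := by positivity
  have hK1 : 1 ≤ K := one_le_pow₀ (by linarith)
  have hZK : ∀ i ∈ Z, (#(S i) : ℝ) ≤ K := by
    intro i hi
    simp only [hZ, mem_filter, mem_univ, true_and] at hi
    have h1 := hlv1 i
    simp only [hi] at h1
    have h2 : nn n1 0 = n1 := by simp [nn]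
    rw [h2] at h1
    rw [hKdef]
    exact_mod_cast h1.le
  have hβK : (1 / K) ^ 2 * K ≤ 1 := by
    have : (1 / K) ^ 2 * K = 1 / K := by
      field_simp
    rw [this, div_le_one hK0]
    exact hK1
  have hκ0 : (0 : ℝ) ≤ 64 * p * Real.log n1 := by positivity
  have hγ4 : γ ≤ 1 := le_trans hγ1 (by norm_num)
  obtain ⟨ξ, hNB, hs1, hs2⟩ := hX V J N S Z t Z0 K (64 * p * Real.log n1) ((1 / K) ^ 2)
    ((1 / (n1 : ℝ) ^ (32 * p)) ^ 6) (agc p t n1) γ η y hy hdeg hZK (by positivity) hβK
    (by positivity) hκ0 hKr hfo.a hfo.b hγ hγ4 hγη hη hZ0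
  obtain ⟨Nf, hNf, hRf⟩ := hfo.f
  have hAg : K ^ 2 * Real.exp (-((agc p t n1) ^ 2 / (32 * t))) ≤ 1 := by
    have h1 : (agc p t n1) ^ 2 / (32 * t) = 32 * p * Real.log n1 := by
      unfold agc
      rw [mul_pow, Real.sq_sqrt (by positivity)]
      field_simp
      ring
    have h2 : Real.exp (-(32 * p * Real.log n1)) = (K ^ 2)⁻¹ := by
      rw [Real.exp_neg]
      congr 1
      rw [hKdef, ← pow_mul, mul_comm (32 * (p : ℝ)), Real.exp_mul, Real.exp_log hn10]
      rw [← Real.rpow_natCast]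
      congr 1
      push_cast
      ring
    rw [h1, h2, mul_inv_cancel₀ (by positivity)]
  rw [← hZc] at hAp
  have hch := hC V J N S Z _ t Nf K (64 * p * Real.log n1) (agc p t n1) γ y ξ hy ht hdeg hZK hK0
    hκ0 hfo.c hγ.le hγ1 hAg hNf hAp hNB
  have hta : ∀ j, 0 ≤ tau p t n1 (#(S j)) := by
    intro j
    unfold tau
    split_ifs
    · linarith [hfo.i]
    · positivity
  obtain ⟨y', hy1, hy2, hy3⟩ := hD V J S y ξ (fun j => tau p t n1 (#(S j))) hta (by
    intro lam
    refine le_trans (hch lam) ?_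
    have hl1 : 0 ≤ l1 (fld S lam univ) := Finset.sum_nonneg fun x _ => abs_nonneg _
    have hd := hfo.d
    have h1 : 21600 * ((1 / (n1 : ℝ)) ^ (12 * p) * l1 (fld S lam univ))
        ≤ 9 / 200 * l1 (fld S lam univ) := by
      have := mul_le_mul_of_nonneg_right hd hl1
      linarith
    have h2 : 21600 * ∑ j, bco ρ n1 (lv j) * |lam j|
        + 1350 * Rf (64 * p * Real.log n1) t (agc p t n1) K Nf * ∑ i ∈ Z, |lam i|
        ≤ ∑ j, tau p t n1 (#(S j)) * |lam j| := by
      rw [hZ, Finset.sum_filter, Finset.mul_sum, Finset.mul_sum, ← Finset.sum_add_distrib]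
      refine Finset.sum_le_sum fun j _ => ?_
      by_cases hj : lv j = 0
      · rw [if_pos hj]
        have e1 : bco ρ n1 (lv j) = (1 / (n1 : ℝ)) ^ 3 := by
          unfold bco
          rw [if_pos hj]
        have e2 : tau p t n1 (#(S j)) = tau0 p t n1 := by
          unfold tau
          have h3 := hlv1 j
          simp only [hj] at h3
          have h4 : nn n1 0 = n1 := by simp [nn]
          rw [h4] at h3
          rw [if_pos h3]
        rw [e1, e2]
        have := mul_le_mul_of_nonneg_right hRf (abs_nonneg (lam j))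
        nlinarith
      · rw [if_neg hj, mul_zero, add_zero]
        have h3 := layer_big (s := #(S j)) (i := lv j) hfo hp1 (by omega) (hlv2 j (by omega))
          (hlv1 j)
        have := mul_le_mul_of_nonneg_right h3 (abs_nonneg (lam j))
        linarith
    linarith)
  exact ⟨ξ, y', hy1, hy2, hy3, hs1, hs2⟩

end Pool.Agent.Helper50.BL
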