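import Pool.Agent.Helper50.BL2.Stmts2

/-! # Assembly, second version -/

namespace Pool.Agent.Helper50.BL

open Finset
open scoped Classical

theorem ovlC_mono {V J : Type} [DecidableEq V] {S : J → Finset V} {dd dd' : ℕ} {δ δ' : ℝ}
    (hd : dd ≤ dd') (h0 : 0 < δ') (hδ : δ' ≤ δ) (hδ1 : δ < 1) (h : OvlC S dd δ) :
    OvlC S dd' δ' := by
  intro i j hij hle hsq
  refine (h i j hij hle hsq).trans (max_le_max (by exact_mod_cast hd) ?_)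
  rcases Nat.eq_zero_or_pos (#(S i)) with hz | hz
  · rw [hz, Nat.cast_zero, Real.zero_rpow (by linarith), Real.zero_rpow (by linarith)]
  · refine Real.rpow_le_rpow_of_exponent_le ?_ (by linarith)
    exact_mod_cast hz

theorem main2 (hNF : ST_NUMF) (hNS : ST_NUMS) (hNP : ST_NUMP) (hL : ST_LAYER2) (hI : ST_ITER2)
    (hP : ST_POT) :
    ∀ δ : ℝ, 0 < δ → δ < 1 → ∃ C : ℝ, ∀ (t d : ℕ), 1 ≤ t → 1 ≤ d →
      ∀ (V J : Type) [Fintype V] [DecidableEq V] [Fintype J] [DecidableEq J] (S : J → Finset V),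
        Deg S t → OvlC S d δ →
        ∃ χ : V → ℤ, (∀ x, χ x = 1 ∨ χ x = -1) ∧ ∀ j, |((∑ x ∈ S j, χ x : ℤ) : ℝ)|
          ≤ C * Real.sqrt (t * Real.log (2 * t * d)) * Real.log (2 * t * d) ^ 3 := by
  intro δ0 hδ0 hδ01
  obtain ⟨δ, hδd⟩ : ∃ δ : ℝ, δ = min δ0 (1 / 4) := ⟨_, rfl⟩
  have hδ : 0 < δ := by rw [hδd]; exact lt_min hδ0 (by norm_num)
  have hδ4 : δ ≤ 1 / 4 := by rw [hδd]; exact min_le_right _ _
  have hδδ : δ ≤ δ0 := by rw [hδd]; exact min_le_left _ _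
  have hδ1 : δ < 1 := by linarith
  obtain ⟨γ, η, p, hγ, hγ1, hγη, hη, hη1, hηδ, hp, hδp, hN⟩ := hNF δ hδ hδ1
  have hp2 : 2 ≤ p := by
    have h1 : (2 : ℝ) ≤ (p : ℝ) := by
      have h2 : (0 : ℝ) ≤ (p : ℝ) := Nat.cast_nonneg _
      nlinarith
    exact_mod_cast h1
  have hη10 : η ≤ 1 / 10 := by
    by_contra hcon
    push Not at hcon
    have h1 : (1 / 2 - η) ^ (1 - δ) ≤ (2 / 5 : ℝ) ^ (3 / 4 : ℝ) := by
      calc (1 / 2 - η) ^ (1 - δ) ≤ (2 / 5 : ℝ) ^ (1 - δ) :=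
            Real.rpow_le_rpow (by linarith) (by linarith) (by linarith)
        _ ≤ (2 / 5 : ℝ) ^ (3 / 4 : ℝ) :=
            Real.rpow_le_rpow_of_exponent_ge (by norm_num) (by norm_num) (by linarith)
    have h2 : (2 / 5 : ℝ) ^ (3 / 4 : ℝ) < 3 / 5 := by
      have h3 : ((2 / 5 : ℝ) ^ (3 / 4 : ℝ)) ^ (4 : ℕ) < (3 / 5 : ℝ) ^ (4 : ℕ) := by
        rw [← Real.rpow_natCast, ← Real.rpow_mul (by norm_num)]
        norm_num
      exact lt_of_pow_lt_pow_left₀ 4 (by norm_num) h3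
    linarith
  obtain ⟨Ca, hCa⟩ := hNS p hp
  obtain ⟨Cb, hCb⟩ := hNP p γ hp hγ
  obtain ⟨C1, hC1⟩ := hN (max Ca Cb)
  refine ⟨C1, ?_⟩
  intro t d ht hd V J _ _ _ _ S hdeg hov
  obtain ⟨dd, Z0, n1, ρ, hddd, hZdd, hZ2, hdd1, hρ1, hρ2, hn1, hn2, hZ0, hfin⟩ := hC1 t d ht hd
  have hstep : ∀ n : ℕ, n1 ≤ n → StepOK p t ρ n := by
    intro n hn
    refine hCa t ρ n ht hρ2 (le_trans ?_ (le_trans hn2 hn))
    exact Nat.pow_le_pow_left (Nat.mul_le_mul_right t (le_max_left Ca Cb)) 8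
  have hfo : FinOK p t ρ n1 dd γ := by
    refine hCb t ρ dd n1 ht hdd1 hρ2 (le_trans ?_ hn1)
    exact Nat.pow_le_pow_left (Nat.mul_le_mul_right dd (Nat.mul_le_mul_right t
      (le_max_right Ca Cb))) 8
  have hov' : OvlC S dd δ := ovlC_mono hddd hδ hδδ hδ01 hov
  obtain ⟨Psi, h1, h2, h3⟩ := hP p t n1 Z0 hp hfo.h hZ2 hfo.i
  obtain ⟨χ, hχ, hb⟩ := hI V J S t dd Z0 δ η (tau p t n1) Psi hδ hδ1 hη hη10 hηδ hZdd
    (by omega) (fun S' y hy hdS hoS => hL V J S' y p t ρ n1 dd Z0 δ γ η hp2 ht hρ1 hstep hfo hγ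
      hγ1 hγη hη hδ hδ1 hδp hZ0 hy hdS hoS) h1 h2 hdeg hov'
  exact ⟨χ, hχ, fun j => le_trans (hb j) (le_trans (h3 _) hfin)⟩

end Pool.Agent.Helper50.BL
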