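import Pool.Agent.Helper5.BL.HOEF
import Pool.Agent.Helper5.BL.LLL
import Pool.Agent.Helper5.BL.COMP
import Pool.Agent.Helper5.BL.KP
import Pool.Agent.Helper5.BL.KPK
import Pool.Agent.Helper53.BL.ITS
import Pool.Agent.Helper76.BL.D1
import Pool.Agent.Helper7.BL.D2
import Pool.Agent.Helper78.BL.D3
import Pool.Agent.Helper7.BL.CNT
import Pool.Agent.Helper79.BL.E1S
import Pool.Agent.Helper76.BL.E2S
import Pool.Agent.Helper15.BL.E1FS
import Pool.Agent.Helper4.BL.RND
import Pool.Agent.Helper83.BL.RC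
import Pool.Agent.Helper4.BL.RNF
import Pool.Agent.Helper50.BL.LOC
import Pool.Agent.Helper49.BL.QPC
import Pool.Agent.Helper24.BL.KST
import Pool.Agent.Helper57.BL.AST
import Pool.Agent.Helper82.BL.GB
import Pool.Agent.Helper84.BL.EVT
import Pool.Agent.Helper52.BL.SHR
import Pool.Agent.Helper3.BL.FKR
import Pool.Agent.Helper38.BL.FLOC
import Pool.Agent.Helper3.BL.QFC
import Pool.Agent.Helper45.BL.XI
import Pool.Agent.Helper51.BL.LEV
import Pool.Agent.Helper47.BL.LV1
import Pool.Agent.Helper77.BL.ONE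
import Pool.Agent.Helper68.BL.CHN
import Pool.Agent.Helper82.BL.LPD
import Pool.Agent.Helper76.BL.CLS
import Pool.Agent.Helper95.BL.NUMP
import Pool.Agent.Helper4.BL.POT
import Pool.Agent.Helper85.BL.NUMS
import Pool.Agent.Helper47.BL.NUMF
import Pool.Agent.Helper50.BL2.Main2
import Pool.Agent.Helper50.BL2.LAYER2
import Pool.Agent.Helper50.BL2.IND2
import Pool.Agent.Helper50.BL2.INV2
import Pool.Agent.Helper50.BL2.ITER2

/-!
# All modules together, second version
-/

namespace Pool.Agent.Helper50.BL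

open Finset
open scoped Classical

theorem all2 : ∀ δ : ℝ, 0 < δ → δ < 1 → ∃ C : ℝ, ∀ (t d : ℕ), 1 ≤ t → 1 ≤ d →
      ∀ (V J : Type) [Fintype V] [DecidableEq V] [Fintype J] [DecidableEq J] (S : J → Finset V),
        Deg S t → OvlC S d δ →
        ∃ χ : V → ℤ, (∀ x, χ x = 1 ∨ χ x = -1) ∧ ∀ j, |((∑ x ∈ S j, χ x : ℤ) : ℝ)|
          ≤ C * Real.sqrt (t * Real.log (2 * t * d)) * Real.log (2 * t * d) ^ 3 := by
  have hHOEF := st_HOEF
  have hCOMP := st_COMP
  have hKP := st_KP hCOMP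
  have hKPK := st_KPK hKP
  have hRND := st_RND hHOEF
  have hE1S := st_E1S st_D1 st_D2 st_D3
  have hE1FS := st_E1FS st_D1 st_D2 st_D3
  have hE2S := st_E2S st_D1
  have hRC := st_RC hRND
  have hRNF := st_RNF hRND
  have hKST := st_KST hKPK st_ITS st_LOC
  have hAST := st_AST hRC hE1S hE2S st_CNT hCOMP st_LOC st_QPC
  have hIND := st_IND2 hKST hAST
  have hGB := st_GB
  have hEVT := st_EVT hHOEF hGB
  have hSHR := st_SHR hHOEF hGB
  have hFKR := st_FKR hKPK st_ITS
  have hXI := st_XI st_LLL hEVT hSHR hFKR st_FLOC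
  have hLEV := st_LEV hCOMP st_FLOC
  have hLV1 := st_LV1 hGB
  have hONE := st_ONE hRNF
  have hCHN := st_CHN hLEV hLV1 hONE st_QFC hE1FS st_CNT hGB
  have hLAY := st_LAYER2 hXI hCHN st_LPD hIND st_CLS
  exact main2 st_NUMF st_NUMS st_NUMP hLAY (st_ITER2 st_INV2) st_POT

end Pool.Agent.Helper50.BL
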