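import Pool.Agent.Helper50.BL.Stmts

/-!
# Statements, second version: the overlap condition only for sets of comparable size
-/

namespace Pool.Agent.Helper50.BL

open Finset
open scoped Classical

noncomputable section

/-- pairwise intersections of two sets of comparable size are small: if `|S i| <= |S j| <= |S i|^2`
then `|S i inter S j| <= max dd |S i|^(1-delta)` -/
def OvlC {V J : Type} [DecidableEq V] (S : J → Finset V) (dd : ℕ) (δ : ℝ) : Prop :=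
  ∀ i j, i ≠ j → #(S i) ≤ #(S j) → #(S j) ≤ #(S i) ^ 2 →
    (#(S i ∩ S j) : ℝ) ≤ max (dd : ℝ) ((#(S i) : ℝ) ^ (1 - δ))

/-- the net of all large sets -/
def ST_IND2 : Prop :=
  ∀ (V J : Type) [Fintype V] [DecidableEq V] [Fintype J] [DecidableEq J] (S : J → Finset V)
    (p t ρ n1 : ℕ) (lv : J → ℕ), 1 ≤ p → 1 ≤ t → 64 * t ≤ 2 ^ ρ → 2 ≤ n1 →
    (∀ n : ℕ, n1 ≤ n → StepOK p t ρ n) → Deg S t →
    (∀ j, #(S j) < nn n1 (lv j) ^ (16 * p)) →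
    (∀ j, 1 ≤ lv j → nn n1 (lv j - 1) ^ (16 * p) ≤ #(S j)) →
    (∀ i j, i ≠ j → 1 ≤ lv j → lv i ≤ lv j →
      32 * t * nn n1 (lv j - 1) ^ 12 * #(S i ∩ S j) ≤ #(S j)) →
    ∃ N : Net V, Kraft N ((1 / (n1 : ℝ) ^ (16 * p)) ^ 2) ((1 / (n1 : ℝ) ^ (32 * p)) ^ 6) ∧
      Approx N S (univ.filter (fun j => 1 ≤ lv j)) (fun lam =>
        (1 / (n1 : ℝ)) ^ (12 * p) * l1 (fld S lam univ) + ∑ j, bco ρ n1 (lv j) * |lam j|)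

/-- one round -/
def ST_LAYER2 : Prop :=
  ∀ (V J : Type) [Fintype V] [DecidableEq V] [Fintype J] [DecidableEq J] (S : J → Finset V)
    (y : V → ℝ) (p t ρ n1 dd Z0 : ℕ) (δ γ η : ℝ), 2 ≤ p → 1 ≤ t → 64 * t ≤ 2 ^ ρ →
    (∀ n : ℕ, n1 ≤ n → StepOK p t ρ n) → FinOK p t ρ n1 dd γ →
    0 < γ → γ ≤ 1 / 10 ^ 6 → γ ≤ η ^ 2 → 0 < η → 0 < δ → δ < 1 → 1 ≤ δ * p →
    2 * ((t : ℝ) + (t : ℝ) ^ 2) * Real.exp (-(η ^ 2 * Z0)) ≤ γ / 4 →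
    (∀ x, |y x| ≤ 1 / 4) → Deg S t → OvlC S dd δ →
    Round S y η Z0 (tau p t n1)

/-- the overlap condition is kept -/
def ST_INV2 : Prop :=
  ∀ (V J : Type) [Fintype V] [DecidableEq V] [Fintype J] [DecidableEq J] (S : J → Finset V)
    (ξ : V → SignType) (dd Z0 : ℕ) (δ η : ℝ), 0 < δ → δ < 1 → 0 < η → η ≤ 1 / 10 →
    1 / 2 + η ≤ (1 / 2 - η) ^ (1 - δ) → Z0 ≤ dd → 1 ≤ Z0 → OvlC S dd δ →
    (∀ j, Z0 ≤ #(S j) → |(#(stay ξ (S j)) : ℝ) - (#(S j) : ℝ) / 2| ≤ η * (#(S j) : ℝ)) →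
    (∀ i j, i ≠ j → Z0 ≤ #(S i ∩ S j) →
      |(#(stay ξ (S i ∩ S j)) : ℝ) - (#(S i ∩ S j) : ℝ) / 2| ≤ η * (#(S i ∩ S j) : ℝ)) →
    OvlC (fun j => stay ξ (S j)) dd δ

/-- iteration of the rounds -/
def ST_ITER2 : Prop :=
  ∀ (V J : Type) [Fintype V] [DecidableEq V] [Fintype J] [DecidableEq J] (S : J → Finset V)
    (t dd Z0 : ℕ) (δ η : ℝ) (ta Psi : ℕ → ℝ), 0 < δ → δ < 1 → 0 < η → η ≤ 1 / 10 →
    1 / 2 + η ≤ (1 / 2 - η) ^ (1 - δ) → Z0 ≤ dd → 1 ≤ Z0 →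
    (∀ (S' : J → Finset V) (y : V → ℝ), (∀ x, |y x| ≤ 1 / 4) → Deg S' t → OvlC S' dd δ →
      Round S' y η Z0 ta) →
    (∀ s : ℕ, s < Z0 → 5 / 4 * (s : ℝ) ≤ Psi s) →
    (∀ s s' : ℕ, Z0 ≤ s → (s' : ℝ) ≤ 3 / 4 * (s : ℝ) → ta s + Psi s' ≤ Psi s) →
    Deg S t → OvlC S dd δ →
    ∃ χ : V → ℤ, (∀ x, χ x = 1 ∨ χ x = -1) ∧ ∀ j, |((∑ x ∈ S j, χ x : ℤ) : ℝ)| ≤ Psi (#(S j))

end

end Pool.Agent.Helper50.BL
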